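import Pool.Agent.H38.AE.Targets
import Pool.Agent.H30.Vino.Divisor

/-! Module C: number of `j`-th roots of unity modulo `q`. -/

set_option autoImplicit false

namespace Pool.Agent.H48.AE

open Pool.Agent.H38.AE

/-- number of solutions of `u ^ j = 1` -/
noncomputable def rt (G : Type) [Group G] (j : ℕ) : ℕ := Nat.card {u : G // u ^ j = 1}

theorem rt_congr {G H : Type} [Group G] [Group H] (e : G ≃* H) (j : ℕ) : rt G j = rt H j := by
  apply Nat.card_congr
  refine Equiv.subtypeEquiv e.toEquiv fun u => ?_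
  change u ^ j = 1 ↔ (e u) ^ j = 1
  rw [← map_pow, map_eq_one_iff e e.injective]

theorem rt_prod (G H : Type) [Group G] [Group H] (j : ℕ) : rt (G × H) j = rt G j * rt H j := by
  unfold rt
  rw [← Nat.card_prod]
  apply Nat.card_congr
  refine (Equiv.subtypeEquivRight fun u => ?_).trans
    (Equiv.subtypeProdEquivProd (p := fun u : G => u ^ j = 1) (q := fun u : H => u ^ j = 1))
  rw [Prod.ext_iff]
  rfl

theorem rt_mul (G : Type) [CommGroup G] [Finite G] (a b : ℕ) :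
    rt G (a * b) ≤ rt G a * rt G b := by
  classical
  have : Fintype G := Fintype.ofFinite G
  have hrt : ∀ j, rt G j = ((Finset.univ : Finset G).filter (fun u => u ^ j = 1)).card := by
    intro j
    unfold rt
    rw [Nat.card_eq_fintype_card, Fintype.card_subtype]
  rw [hrt, hrt, hrt]
  set s := (Finset.univ : Finset G).filter (fun u => u ^ (a * b) = 1) with hs
  have h1 : s.card ≤ ((Finset.univ : Finset G).filter (fun u => u ^ a = 1)).card *
      (s.image (fun u => u ^ a)).card := by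
    apply Finset.card_le_mul_card_image
    intro v hv
    obtain ⟨u0, hu0, rfl⟩ := Finset.mem_image.1 hv
    apply Finset.card_le_card_of_injOn (fun u => u / u0)
    · intro u hu
      have h2 : u ^ a = u0 ^ a := (Finset.mem_filter.1 hu).2
      simp only [Finset.coe_filter, Finset.mem_univ, true_and, Set.mem_setOf_eq]
      rw [div_pow, h2, div_self']
    · intro u _ u' _ h
      exact div_left_injective h
  refine h1.trans (Nat.mul_le_mul_left _ (Finset.card_le_card ?_))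
  intro v hv
  obtain ⟨u, hu, rfl⟩ := Finset.mem_image.1 hv
  rw [Finset.mem_filter]
  refine ⟨Finset.mem_univ _, ?_⟩
  rw [← pow_mul]
  exact (Finset.mem_filter.1 hu).2

theorem rt_dvd (G : Type) [CommGroup G] [Finite G] {j l : ℕ}
    (h : ∀ u : G, u ^ j = 1 → u ^ l = 1) : rt G j ≤ rt G l := by
  apply Nat.card_le_card_of_injective (fun u : {u : G // u ^ j = 1} =>
    (⟨u.1, h u.1 u.2⟩ : {u : G // u ^ l = 1}))
  rintro ⟨u, hu⟩ ⟨v, hv⟩ huv
  simp only [Subtype.mk.injEq] at huv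
  exact Subtype.ext huv

theorem sq_one (a : ℕ) (u : (ZMod (2 ^ a))ˣ) (h : u ^ 2 = 1) :
    (u : ZMod (2 ^ a)) = 1 ∨ (u : ZMod (2 ^ a)) = -1 ∨
      (u : ZMod (2 ^ a)) = 1 + 2 ^ (a - 1) ∨ (u : ZMod (2 ^ a)) = -1 + 2 ^ (a - 1) := by
  rcases Nat.eq_zero_or_pos a with rfl | ha
  · left
    exact Subsingleton.elim (α := ZMod 1) _ _
  obtain ⟨b, rfl⟩ : ∃ b, a = b + 1 := ⟨a - 1, by omega⟩
  rw [Nat.add_sub_cancel]
  have : NeZero (2 ^ (b + 1)) := ⟨by positivity⟩
  obtain ⟨x, hx⟩ : ∃ x : ℤ, (x : ZMod (2 ^ (b + 1))) = u :=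
    ZMod.intCast_surjective _
  have hodd : x % 2 = 1 := by
    have h1 : IsUnit ((x : ℤ) : ZMod (2 ^ (b + 1))) := by rw [hx]; exact u.isUnit
    have h2 : IsUnit (ZMod.castHom (show 2 ∣ 2 ^ (b + 1) from dvd_pow_self 2 (by omega)) (ZMod 2)
      ((x : ℤ) : ZMod (2 ^ (b + 1)))) := h1.map _
    rw [map_intCast] at h2
    rcases Int.emod_two_eq_zero_or_one x with h3 | h3
    · exfalso
      have h4 : ((x : ℤ) : ZMod 2) = 0 := by
        rw [ZMod.intCast_zmod_eq_zero_iff_dvd]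
        exact Int.dvd_of_emod_eq_zero h3
      rw [h4] at h2
      exact not_isUnit_zero h2
    · exact h3
  have hdvd : ((2 ^ (b + 1) : ℕ) : ℤ) ∣ x ^ 2 - 1 := by
    rw [← ZMod.intCast_zmod_eq_zero_iff_dvd]
    push_cast
    rw [hx, ← Units.val_pow_eq_pow_val, h, Units.val_one, sub_self]
  push_cast at hdvd
  have key : ∀ (y : ℤ) (m : ℤ), y - 1 = 4 * m → (2 : ℤ) ^ (b + 1) ∣ y ^ 2 - 1 →
      (2 : ℤ) ^ b ∣ y - 1 := by
    intro y m hy hd
    have h1 : y ^ 2 - 1 = (2 * m + 1) * (2 * (y - 1)) := by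
      have : y = 4 * m + 1 := by linarith
      rw [this]; ring
    rw [h1] at hd
    have hc : IsCoprime ((2 : ℤ) ^ (b + 1)) (2 * m + 1) := by
      apply IsCoprime.pow_left
      exact ⟨-m, 1, by ring⟩
    have h2 : (2 : ℤ) ^ (b + 1) ∣ 2 * (y - 1) := hc.dvd_of_dvd_mul_left hd
    rw [pow_succ, mul_comm] at h2
    exact (mul_dvd_mul_iff_left (by norm_num : (2 : ℤ) ≠ 0)).1 h2
  have hz : ((2 : ZMod (2 ^ (b + 1))) ^ (b + 1)) = 0 := by
    have := ZMod.natCast_self (2 ^ (b + 1))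
    push_cast at this
    exact this
  have fin : ∀ (t : ℤ), ((2 : ZMod (2 ^ (b + 1))) ^ b) * (t : ZMod (2 ^ (b + 1))) = 0 ∨
      ((2 : ZMod (2 ^ (b + 1))) ^ b) * (t : ZMod (2 ^ (b + 1))) = 2 ^ b := by
    intro t
    rcases Int.even_or_odd' t with ⟨s, hs | hs⟩
    · left
      rw [hs]
      push_cast
      rw [← mul_assoc, ← pow_succ, hz, zero_mul]
    · right
      rw [hs]
      push_cast
      rw [mul_add, ← mul_assoc, ← pow_succ, hz, zero_mul, zero_add, mul_one]
  have h4 : x % 4 = 1 ∨ x % 4 = 3 := by omega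
  rcases h4 with h4 | h4
  · obtain ⟨t, ht⟩ := key x (x / 4) (by omega) hdvd
    have h5 : (u : ZMod (2 ^ (b + 1))) = 1 + 2 ^ b * (t : ZMod (2 ^ (b + 1))) := by
      rw [← hx]
      have : x = 1 + 2 ^ b * t := by linarith
      rw [this]
      push_cast
      ring
    rcases fin t with h6 | h6
    · left; rw [h5, h6, add_zero]
    · right; right; left; rw [h5, h6]
  · obtain ⟨t, ht⟩ := key (-x) ((-x) / 4) (by omega) (by rwa [neg_sq])
    have h5 : (u : ZMod (2 ^ (b + 1))) = -1 + 2 ^ b * ((-t : ℤ) : ZMod (2 ^ (b + 1))) := by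
      rw [← hx]
      have : x = -1 + 2 ^ b * (-t) := by linarith
      rw [this]
      push_cast
      ring
    rcases fin (-t) with h6 | h6
    · right; left; rw [h5, h6, add_zero]
    · right; right; right; rw [h5, h6]

theorem rt_two (a : ℕ) : rt (ZMod (2 ^ a))ˣ 2 ≤ 4 := by
  classical
  have : NeZero (2 ^ a) := ⟨by positivity⟩
  set F : Finset (ZMod (2 ^ a)) := {1, -1, 1 + 2 ^ (a - 1), -1 + 2 ^ (a - 1)} with hF
  have h1 : rt (ZMod (2 ^ a))ˣ 2 ≤ Nat.card {x // x ∈ F} := by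
    apply Nat.card_le_card_of_injective (fun u : {u : (ZMod (2 ^ a))ˣ // u ^ 2 = 1} =>
      (⟨(u.1 : ZMod (2 ^ a)), by
        have := sq_one a u.1 u.2
        rw [hF]
        simp only [Finset.mem_insert, Finset.mem_singleton]
        exact this⟩ : {x // x ∈ F}))
    intro u v huv
    exact Subtype.ext (Units.ext (Subtype.ext_iff.1 huv))
  refine h1.trans ?_
  rw [Nat.card_eq_fintype_card, Fintype.card_coe]
  exact Finset.card_le_four

theorem rt_two_pow (a t : ℕ) : rt (ZMod (2 ^ a))ˣ (2 ^ t) ≤ 4 ^ t := by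
  have : NeZero (2 ^ a) := ⟨by positivity⟩
  induction t with
  | zero =>
    rw [pow_zero, pow_zero]
    unfold rt
    rw [Nat.card_eq_fintype_card, Fintype.card_le_one_iff]
    rintro ⟨u, hu⟩ ⟨v, hv⟩
    rw [pow_one] at hu hv
    subst hu
    subst hv
    rfl
  | succ t ih =>
    rw [pow_succ, pow_succ]
    exact (rt_mul _ _ _).trans (Nat.mul_le_mul ih (rt_two a))

theorem rt_two_all (a j : ℕ) (hj : 1 ≤ j) : rt (ZMod (2 ^ a))ˣ j ≤ 4 ^ j := by
  have : NeZero (2 ^ a) := ⟨by positivity⟩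
  have hcard : Nat.card (ZMod (2 ^ a))ˣ ∣ 2 ^ a := by
    rw [Nat.card_eq_fintype_card, ZMod.card_units_eq_totient]
    rcases Nat.eq_zero_or_pos a with rfl | ha
    · simp
    · rw [Nat.totient_prime_pow Nat.prime_two ha]
      simp only [Nat.add_one_sub_one, mul_one]
      exact pow_dvd_pow 2 (by omega)
  obtain ⟨t, -, ht⟩ := (Nat.dvd_prime_pow Nat.prime_two).1 (Nat.gcd_dvd_right j (2 ^ a))
  have h1 : rt (ZMod (2 ^ a))ˣ j ≤ rt (ZMod (2 ^ a))ˣ (2 ^ t) := by
    apply rt_dvd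
    intro u hu
    rw [← ht]
    apply orderOf_dvd_iff_pow_eq_one.1
    apply Nat.dvd_gcd (orderOf_dvd_of_pow_eq_one hu)
    exact (orderOf_dvd_natCard u).trans hcard
  refine h1.trans ((rt_two_pow a t).trans (Nat.pow_le_pow_right (by norm_num) ?_))
  have h2 : 2 ^ t ≤ j := by
    rw [← ht]
    exact Nat.gcd_le_left _ hj
  exact Nat.lt_two_pow_self.le.trans h2

theorem rt_odd (p a j : ℕ) (hp : p.Prime) (hp2 : p ≠ 2) (hj : 1 ≤ j) :
    rt (ZMod (p ^ a))ˣ j ≤ j := by
  classical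
  have : NeZero (p ^ a) := ⟨pow_ne_zero _ hp.ne_zero⟩
  have := ZMod.isCyclic_units_of_prime_pow p hp hp2 a
  unfold rt
  rw [Nat.card_eq_fintype_card, Fintype.card_subtype]
  exact IsCyclic.card_pow_eq_one_le hj

theorem rt_le (j k : ℕ) (hj : 1 ≤ j) (hk : 4 ^ j + j ≤ 2 ^ k) (q : ℕ) :
    q ≠ 0 → rt (ZMod q)ˣ j ≤ q.divisors.card ^ k := by
  induction q using Nat.recOnPosPrimePosCoprime with
  | prime_pow p n hp hn =>
    intro _
    have h1 : rt (ZMod (p ^ n))ˣ j ≤ 4 ^ j + j := by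
      by_cases h : p = 2
      · subst h
        exact (rt_two_all n j hj).trans (Nat.le_add_right _ _)
      · exact (rt_odd p n j hp h hj).trans (Nat.le_add_left _ _)
    refine h1.trans (hk.trans (Nat.pow_le_pow_left ?_ k))
    rw [Nat.divisors_prime_pow hp, Finset.card_map, Finset.card_range]
    omega
  | zero => intro h; exact absurd rfl h
  | one =>
    intro _
    have : rt (ZMod 1)ˣ j ≤ 1 := by
      unfold rt
      have : Subsingleton (ZMod 1)ˣ := ⟨fun a b => Units.ext (Subsingleton.elim _ _)⟩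
      have : Subsingleton {u : (ZMod 1)ˣ // u ^ j = 1} := inferInstance
      exact Finite.card_le_one_iff_subsingleton.2 this
    simpa using this
  | coprime m n hm hn hmn ihm ihn =>
    intro _
    have e : (ZMod (m * n))ˣ ≃* (ZMod m)ˣ × (ZMod n)ˣ :=
      (Units.mapEquiv (ZMod.chineseRemainder hmn).toMulEquiv).trans MulEquiv.prodUnits
    rw [rt_congr e, rt_prod, Nat.Coprime.card_divisors_mul hmn, mul_pow]
    exact Nat.mul_le_mul (ihm (by omega)) (ihn (by omega))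

theorem pf_C : T_C := by
  intro j ε hj hε
  obtain ⟨k, hk⟩ : ∃ k : ℕ, 4 ^ j + j ≤ 2 ^ k := ⟨4 ^ j + j, Nat.lt_two_pow_self.le⟩
  obtain ⟨m, hm⟩ := exists_nat_gt (1 / ε)
  have hm0 : (0 : ℝ) < m := lt_trans (by positivity) hm
  have hm1 : 1 ≤ m := by exact_mod_cast hm0
  obtain ⟨C, hC0, hC⟩ := Pool.Agent.H30.Vino.card_divisors_pow_le (k * m)
  refine ⟨(C : ℝ) ^ ((1 : ℝ) / m), Real.rpow_pos_of_pos (by exact_mod_cast hC0) _, ?_⟩
  intro q hq
  have hq0 : q ≠ 0 := NeZero.ne q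
  have h1 : ((Finset.univ : Finset (ZMod q)ˣ).filter (fun u => u ^ j = 1)).card =
      rt (ZMod q)ˣ j := by
    unfold rt
    rw [Nat.card_eq_fintype_card, Fintype.card_subtype]
  rw [h1]
  have h2 := rt_le j k hj hk q hq0
  have h3 : (rt (ZMod q)ˣ j) ^ m ≤ C * q := by
    refine (Nat.pow_le_pow_left h2 m).trans ?_
    rw [← pow_mul]
    exact hC q (Nat.pos_of_ne_zero hq0)
  have h4 : ((rt (ZMod q)ˣ j : ℕ) : ℝ) ^ m ≤ (C : ℝ) * q := by exact_mod_cast h3
  have h5 : ((rt (ZMod q)ˣ j : ℕ) : ℝ) ≤ ((C : ℝ) * q) ^ ((1 : ℝ) / m) := by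
    have h6 := Real.rpow_le_rpow (by positivity) h4 (show (0 : ℝ) ≤ 1 / m by positivity)
    rwa [← Real.rpow_natCast, ← Real.rpow_mul (by positivity), mul_one_div_cancel hm0.ne',
      Real.rpow_one] at h6
  refine h5.trans ?_
  rw [Real.mul_rpow (by positivity) (by positivity)]
  apply mul_le_mul_of_nonneg_left _ (by positivity)
  apply Real.rpow_le_rpow_of_exponent_le
  · exact_mod_cast Nat.pos_of_ne_zero hq0
  · rw [div_lt_iff₀ hε] at hm
    rw [div_le_iff₀ hm0]
    nlinarith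

end Pool.Agent.H48.AE
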