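import Pool.Agent.H38.AE.Targets

/-! Module O: orthogonality of the Dirichlet characters. -/

set_option autoImplicit false

namespace Pool.Agent.H48.AE

open Pool.Agent.H38.AE

theorem pair_sum (q : ℕ) [NeZero q] (a b : ZMod q) :
    ∑ χ : DirichletCharacter ℂ q, χ a * (starRingEnd ℂ) (χ b) =
      if a = b ∧ IsUnit a then (q.totient : ℂ) else 0 := by
  by_cases hb : IsUnit b
  · have h := DirichletCharacter.sum_char_inv_mul_char_eq (R := ℂ) hb a
    have h1 : ∀ χ : DirichletCharacter ℂ q, χ a * (starRingEnd ℂ) (χ b) = χ b⁻¹ * χ a := by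
      intro χ
      have h2 : (starRingEnd ℂ) (χ b) = (χ b)⁻¹ := by
        have := MulChar.star_apply' χ b
        rw [MulChar.inv_apply_eq_inv'] at this
        exact this
      have h3 : χ b⁻¹ * χ b = 1 := by
        rw [← map_mul, ZMod.inv_mul_of_unit b hb, map_one]
      rw [h2, ← eq_inv_of_mul_eq_one_left h3, mul_comm]
    rw [Finset.sum_congr rfl fun χ _ => h1 χ, h]
    by_cases hab : b = a
    · subst hab
      rw [if_pos rfl, if_pos ⟨rfl, hb⟩]
    · rw [if_neg hab, if_neg]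
      rintro ⟨h4, -⟩
      exact hab h4.symm
  · rw [if_neg]
    · apply Finset.sum_eq_zero
      intro χ _
      rw [MulChar.map_nonunit χ hb, map_zero, mul_zero]
    · rintro ⟨h4, h5⟩
      exact hb (h4 ▸ h5)

theorem pf_O : T_O := by
  intro q _ ι I f
  apply Complex.ofReal_injective
  push_cast
  have h1 : ∀ χ : DirichletCharacter ℂ q, ((‖∑ i ∈ I, χ (f i)‖ : ℂ)) ^ 2 =
      ∑ i ∈ I, ∑ j ∈ I, χ (f i) * (starRingEnd ℂ) (χ (f j)) := by
    intro χ
    rw [← Complex.mul_conj', map_sum, Finset.sum_mul_sum]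
  rw [Finset.sum_congr rfl fun χ _ => h1 χ, Finset.sum_comm]
  have h2 : ∀ i ∈ I, ∑ χ : DirichletCharacter ℂ q,
      ∑ j ∈ I, χ (f i) * (starRingEnd ℂ) (χ (f j)) =
      ∑ j ∈ I, if f i = f j ∧ IsUnit (f i) then (q.totient : ℂ) else 0 := by
    intro i _
    rw [Finset.sum_comm]
    exact Finset.sum_congr rfl fun j _ => pair_sum q (f i) (f j)
  rw [Finset.sum_congr rfl h2, ← Finset.sum_product', ← Finset.sum_filter, Finset.sum_const,
    nsmul_eq_mul, mul_comm]

end Pool.Agent.H48.AE
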